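import Mathlib
import Pool.Agent.H.MP_41802b_lc.B

namespace Pool.Agent.Results.MP_41802b_lc.Single

open Pool.Agent.H.MP_0036f5_lc Pool.Agent.H.MP_41802b_lc

theorem result (S Q : Type) [Fintype S] [Fintype Q] (M : LA S Q (S × Bool)) (hM : Once M) :
    ∃ (Q' : Type) (_ : Fintype Q') (D : DFA2 S Q'),
      Fintype.card Q' ≤ 2 ^ (3 * Fintype.card Q ^ 2 + 3 * Fintype.card Q + 3) ∧
      ∀ w, D.Accepts w ↔ M.Accepts w := main hM

end Pool.Agent.Results.MP_41802b_lc.Single
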